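import Pool.Agent.PST.StmtsK3

/-!
# Squad PST, row OBA (helper46): the forms of a cocycle, bilinearity
-/

open scoped BigOperators

noncomputable section

namespace Pool.Agent.PST.H46

open Pool.Agent.PFD.D2b (FrR)
open Pool.Agent.PSS

section inr

variable {R K : Type} [CommRing R] [Field K] [Algebra R K]

theorem InR.add {s t : K} (hs : InR R s) (ht : InR R t) : InR R (s + t) := by
  obtain ⟨a, rfl⟩ := hs
  obtain ⟨b, rfl⟩ := ht
  exact ⟨a + b, map_add _ _ _⟩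

theorem InR.neg {s : K} (hs : InR R s) : InR R (-s) := by
  obtain ⟨a, rfl⟩ := hs
  exact ⟨-a, map_neg _ _⟩

theorem InR.sub {s t : K} (hs : InR R s) (ht : InR R t) : InR R (s - t) := by
  rw [sub_eq_add_neg]
  exact InR.add hs (InR.neg ht)

theorem InR.zero : InR R (0 : K) := ⟨0, map_zero _⟩

end inr

section ctx

variable {R K V A B κ Ω : Type} [CommRing R] [Field K] [Algebra R K] [CommGroup V]
    [Fintype V] [Ring A] [Algebra R A] [Ring B] [Algebra R B] [Algebra K B] [Fintype κ]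
    [Fintype Ω] [MulAction (V × V) Ω] {W : Subgroup V} {α : V →* A} {lam : A →ₗ[R] R}
    {x y : κ → A} {b : Ω → A} {c : Ω → (A →ₗ[R] R)} (C : KC R K B α lam x y b c)
    {cc : B →ₗ[K] B →ₗ[K] B}

theorem kp_swap (u v : V) : kp C.i α cc v u = - kp C.i α cc u v := by
  unfold kp
  rw [mul_comm v u, ← neg_mul, neg_sub]

theorem cc_w (hz : Z2 C W cc) {w : V} (hw : w ∈ W) (u v : V) :
    cc (C.i (α u)) (C.i (α (v * w))) = cc (C.i (α u)) (C.i (α v)) * C.i (α w) ∧
    cc (C.i (α (u * w))) (C.i (α v)) = cc (C.i (α u)) (C.i (α v)) * C.i (α w) ∧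
    C.i (α w) * cc (C.i (α u)) (C.i (α v)) = cc (C.i (α u)) (C.i (α v)) * C.i (α w) := by
  have h1 : cc (C.i (α u)) (C.i (α (v * w))) = cc (C.i (α u)) (C.i (α v)) * C.i (α w) := by
    have h := (hz.rel w hw (C.i (α u)) (C.i (α v))).2.2
    rw [map_mul α, map_mul C.i]
    exact h
  have h2 : cc (C.i (α (u * w))) (C.i (α v)) = cc (C.i (α u)) (C.i (α v)) * C.i (α w) := by
    have h := (hz.rel w hw (C.i (α u)) (C.i (α v))).2.1
    rw [← h1, mul_comm v w, map_mul α, map_mul C.i, map_mul α, map_mul C.i]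
    exact h
  refine ⟨h1, h2, ?_⟩
  have h := (hz.rel w hw (C.i (α u)) (C.i (α v))).1
  rw [← h2, mul_comm u w, map_mul α, map_mul C.i]
  exact h.symm

theorem kp_wl (hz : Z2 C W cc) {w : V} (hw : w ∈ W) (u v : V) :
    kp C.i α cc (u * w) v = kp C.i α cc u v := by
  unfold kp
  rw [(cc_w C hz hw u v).2.1, (cc_w C hz hw v u).1, ← sub_mul, mul_assoc, ← map_mul C.i,
    ← map_mul α]
  congr 4
  rw [mul_inv, mul_inv, mul_inv]
  rw [show w * (u⁻¹ * w⁻¹ * v⁻¹) = (w * w⁻¹) * (u⁻¹ * v⁻¹) by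
    rw [mul_comm u⁻¹ w⁻¹]; simp only [mul_assoc], mul_inv_cancel, one_mul]

theorem kp_wr (hz : Z2 C W cc) {w : V} (hw : w ∈ W) (u v : V) :
    kp C.i α cc u (v * w) = kp C.i α cc u v := by
  rw [kp_swap C (v * w) u, kp_wl C hz hw, ← kp_swap C]

theorem kp_zr (hz : Z2 C W cc) {w : V} (hw : w ∈ W) (u : V) : kp C.i α cc u w = 0 := by
  have h1 : cc (C.i (α u)) (C.i (α w)) = 0 := by
    have h := (cc_w C hz hw u 1).1
    rw [one_mul, map_one α, map_one C.i] at h
    rw [h]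
    have h2 := hz.nrm.2 (C.i (α u))
    rw [show cc (C.i (α u)) 1 = 0 from h2, zero_mul]
  have h1' : cc (C.i (α w)) (C.i (α u)) = 0 := by
    have h := (cc_w C hz hw 1 u).2.1
    rw [one_mul, map_one α, map_one C.i] at h
    rw [h]
    have h2 := hz.nrm.1 (C.i (α u))
    rw [show cc 1 (C.i (α u)) = 0 from h2, zero_mul]
  unfold kp
  rw [h1, h1', sub_zero, zero_mul]

theorem kp_zl (hz : Z2 C W cc) {w : V} (hw : w ∈ W) (u : V) : kp C.i α cc w u = 0 := by
  rw [kp_swap C u w, kp_zr C hz hw, neg_zero]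

theorem kp_wc (hz : Z2 C W cc) {w : V} (hw : w ∈ W) (u v : V) :
    C.i (α w) * kp C.i α cc u v = kp C.i α cc u v * C.i (α w) := by
  unfold kp
  have h1 := (cc_w C hz hw u v).2.2
  have h2 := (cc_w C hz hw v u).2.2
  rw [← mul_assoc, mul_sub, h1, h2, ← sub_mul, mul_assoc, mul_assoc, ← map_mul C.i,
    ← map_mul α, ← map_mul C.i, ← map_mul α, mul_comm w]

/-- `(PR)` -/
theorem pr (hz : Z2 C W cc) (u u' v : V) : ∃ a : A,
    cc (C.i (α (u * u'))) (C.i (α v)) - cc (C.i (α v)) (C.i (α (u * u'))) =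
      C.i (α u) * (cc (C.i (α u')) (C.i (α v)) - cc (C.i (α v)) (C.i (α u'))) +
      (cc (C.i (α u)) (C.i (α v)) - cc (C.i (α v)) (C.i (α u))) * C.i (α u') +
      (C.i (α v) * cc (C.i (α u)) (C.i (α u')) - cc (C.i (α u)) (C.i (α u')) * C.i (α v)) +
      C.i a := by
  obtain ⟨a₁, h1⟩ := hz.cyc (α u) (α u') (α v)
  obtain ⟨a₂, h2⟩ := hz.cyc (α u) (α v) (α u')
  obtain ⟨a₃, h3⟩ := hz.cyc (α v) (α u) (α u')
  refine ⟨-(a₁ - a₂ + a₃), ?_⟩
  simp only [dl] at h1 h2 h3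
  rw [← map_mul C.i, ← map_mul C.i, ← map_mul α, ← map_mul α] at h1 h2 h3
  rw [map_neg, map_add, map_sub, h1, h2, h3, mul_comm v u, mul_comm u' v]
  noncomm_ring

theorem ob_add (hz : Z2 C W cc) (z : A) (u u' v : V) (hu : z * α u = α u * z)
    (hv : z * α v = α v * z) :
    InR R (C.lamK (C.i z * kp C.i α cc (u * u') v) - C.lamK (C.i z * kp C.i α cc u v) -
        C.lamK (C.i z * kp C.i α cc u' v)) := by
  obtain ⟨a, ha⟩ := pr C hz u u' v
  refine ⟨lam (z * a * α (u * u' * v)⁻¹), ?_⟩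
  rw [← C.lk, map_mul C.i, map_mul C.i]
  unfold kp
  rw [ha]
  generalize hX : cc (C.i (α u')) (C.i (α v)) - cc (C.i (α v)) (C.i (α u')) = X
  generalize hY : cc (C.i (α u)) (C.i (α v)) - cc (C.i (α v)) (C.i (α u)) = Y
  generalize hS : cc (C.i (α u)) (C.i (α u')) = S
  have e1 : C.i (α (u' * v)⁻¹) = C.i (α (u * u' * v)⁻¹) * C.i (α u) := by
    rw [← map_mul C.i, ← map_mul α]
    congr 2
    rw [mul_inv, mul_inv, mul_inv, mul_comm u⁻¹ u'⁻¹]
    rw [show u'⁻¹ * u⁻¹ * v⁻¹ * u = u'⁻¹ * v⁻¹ * (u⁻¹ * u) by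
      rw [mul_assoc u'⁻¹, mul_comm u⁻¹ v⁻¹]; simp only [mul_assoc], inv_mul_cancel, mul_one]
  have e2 : C.i (α (u * v)⁻¹) = C.i (α u') * C.i (α (u * u' * v)⁻¹) := by
    rw [← map_mul C.i, ← map_mul α]
    congr 2
    rw [mul_inv, mul_inv, mul_inv]
    rw [show u' * (u⁻¹ * u'⁻¹ * v⁻¹) = u' * u'⁻¹ * (u⁻¹ * v⁻¹) by
      rw [mul_comm u⁻¹ u'⁻¹]; simp only [mul_assoc], mul_inv_cancel, one_mul]
  rw [e1, e2]
  have e3 : C.i (α v) * C.i (α (u * u' * v)⁻¹) = C.i (α (u * u' * v)⁻¹) * C.i (α v) := by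
    rw [← map_mul C.i, ← map_mul α, ← map_mul C.i, ← map_mul α, mul_comm v]
  have hu' : C.i z * C.i (α u) = C.i (α u) * C.i z := by rw [← map_mul C.i, ← map_mul C.i, hu]
  have hv' : C.i z * C.i (α v) = C.i (α v) * C.i z := by rw [← map_mul C.i, ← map_mul C.i, hv]
  generalize C.i (α (u * u' * v)⁻¹) = p at e3 ⊢
  generalize C.i (α u) = U at hu' ⊢
  generalize C.i (α v) = N at e3 hv' ⊢
  generalize C.i (α u') = U'
  generalize C.i a = a'
  generalize C.i z = Z at hu' hv' ⊢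
  have t1 : C.lamK (Z * (U * X * p)) = C.lamK (Z * (X * (p * U))) := by
    rw [show Z * (U * X * p) = U * (Z * X * p) by
      rw [← mul_assoc, ← mul_assoc, hu']; simp only [mul_assoc], C.rfK.sym]
    congr 1
    simp only [mul_assoc]
  have t2 : C.lamK (Z * ((N * S - S * N) * p)) = 0 := by
    rw [sub_mul, mul_sub, map_sub, sub_eq_zero]
    rw [show Z * (N * S * p) = N * (Z * S * p) by
      rw [← mul_assoc, ← mul_assoc, hv']; simp only [mul_assoc], C.rfK.sym]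
    congr 1
    rw [mul_assoc, mul_assoc, mul_assoc, e3]
  rw [add_mul, add_mul, add_mul, mul_add, mul_add, mul_add, map_add, map_add, map_add, t1, t2]
  rw [show Z * (Y * U' * p) = Z * (Y * (U' * p)) by simp only [mul_assoc],
    show Z * (a' * p) = Z * a' * p by simp only [mul_assoc]]
  ring

theorem ob_pow (hz : Z2 C W cc) (z : A) (u v : V) (hu : z * α u = α u * z)
    (hv : z * α v = α v * z) (n : ℕ) :
    InR R (C.lamK (C.i z * kp C.i α cc (u ^ n) v) -
      (n : K) * C.lamK (C.i z * kp C.i α cc u v)) := by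
  induction n with
  | zero =>
    rw [pow_zero, kp_zl C hz W.one_mem, mul_zero, map_zero, Nat.cast_zero, zero_mul, sub_zero]
    exact InR.zero
  | succ n ih =>
    have hun : z * α (u ^ n) = α (u ^ n) * z := by
      rw [map_pow]
      exact (Commute.pow_right (show Commute z (α u) from hu) n)
    have h := ob_add C hz z (u ^ n) u v hun hv
    rw [← pow_succ] at h
    have h2 := InR.add h ih
    have e : C.lamK (C.i z * kp C.i α cc (u ^ (n + 1)) v) -
        ((n + 1 : ℕ) : K) * C.lamK (C.i z * kp C.i α cc u v) =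
        C.lamK (C.i z * kp C.i α cc (u ^ (n + 1)) v) - C.lamK (C.i z * kp C.i α cc (u ^ n) v) -
          C.lamK (C.i z * kp C.i α cc u v) + (C.lamK (C.i z * kp C.i α cc (u ^ n) v) -
      (n : K) * C.lamK (C.i z * kp C.i α cc u v)) := by
      push_cast
      ring
    rw [e]
    exact h2

end ctx

/-- row OBA -/
theorem oba : ObaStmt := by
  intro R K V A B κ Ω _ _ _ _ _ _ _ _ _ _ _ _ _ W α lam x y b c C cc hz
  refine ⟨fun u v => kp_swap C u v, fun w hw u v => ⟨kp_wl C hz hw u v, kp_wr C hz hw u v,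
    kp_zr C hz hw u, kp_wc C hz hw u v⟩, fun z u u' v hu _ hv => ob_add C hz z u u' v hu hv, ?_⟩
  intro z ℓ u v hu hv hw
  have h := InR.neg (ob_pow C hz z u v hu hv ℓ)
  rw [kp_zl C hz hw, mul_zero, map_zero, zero_sub, neg_neg] at h
  exact h

end Pool.Agent.PST.H46
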