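import Pool.Agent.PST.StmtsK4
import Pool.Agent.PSS.Nwe

/-!
# Squad PST, row YCB (helper46)
-/

open scoped BigOperators

noncomputable section

namespace Pool.Agent.PST.H46

open Pool.Agent.PFC (tw IsTv)
open Pool.Agent.PFD.D2 (Cdv FibG)
open Pool.Agent.PFD.D2b (FrR)
open Pool.Agent.PSS
open Pool.Agent.PSS.S0 (IsBQ)

/-- fixed by a subgroup and commuting -/
theorem mem_fx_iff {R V A : Type} [CommRing R] [CommGroup V] [Ring A] [Algebra R A]
    {α : V →* A} {S : Subgroup V} {a : A} :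
    a ∈ FxR (cw R α) S ↔ ∀ s ∈ S, a * α s = α s * a := by
  constructor
  · intro h s hs
    have h1 : α s * (a * α s⁻¹) = a := h s hs
    calc a * α s = α s * (a * α s⁻¹) * α s := by rw [h1]
      _ = α s * a * (α s⁻¹ * α s) := by simp only [mul_assoc]
      _ = α s * a := by rw [← map_mul, inv_mul_cancel, map_one, mul_one]
  · intro h s hs
    show α s * (a * α s⁻¹) = a
    rw [← mul_assoc, ← h s hs, mul_assoc, ← map_mul, mul_inv_cancel, map_one, mul_one]

theorem mem_fx_zpowers {R V A : Type} [CommRing R] [CommGroup V] [Finite V] [Ring A] [Algebra R A]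
    {α : V →* A} {r : V} {a : A} (h : a * α r = α r * a) :
    a ∈ FxR (cw R α) (Subgroup.zpowers r) := by
  rw [mem_fx_iff]
  intro s hs
  rw [← (isOfFinOrder_of_finite r).mem_powers_iff_mem_zpowers] at hs
  obtain ⟨n, rfl⟩ := hs
  show a * α (r ^ n) = α (r ^ n) * a
  rw [map_pow]
  exact Commute.pow_right (show Commute a (α r) from h) n

/-- row YCB (uses YCE, LFX) -/
theorem ycb (yce : YceStmt) (lfx : LfxStmt) : YcbStmt := by
  intro ℓ hℓ R K F V A A₀ B κ Ω Br _ _ _ _ _ _ _ _ _ _ _ _ _ _ _ _ _ _ W α lam x y b c C cv f α₀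
    lam₀ x₀ y₀ b₀ c₀ g r e αB β hp hF hL hg g1 hint hr hrl hBQ he
  obtain ⟨h1, h2⟩ := yce ℓ R K V A B κ Ω W α lam x y b c C g r e hp hg g1 hint hr hrl he
  have hL1 := lfx R F V A A₀ κ Ω cv f α₀ lam₀ x₀ y₀ b₀ c₀ α lam x y b c hF hL
    (Subgroup.zpowers r)
  have heR : e ∈ FxR (cw R α) (Subgroup.zpowers r) := mem_fx_zpowers h1
  have hqe := (hL1.2.2 e heR).1
  have hqs : ∀ (r : R) (a : A), f.q (r • a) = cv.κ r • f.q a := by
    intro r a
    rw [Algebra.smul_def, map_mul, f.sc, ← Algebra.smul_def]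
  have hqc : ∀ (s : V) (a : A), f.q (cw R α s a) = cw F α₀ s (f.q a) := by
    intro s a
    show f.q (α s * (a * α s⁻¹)) = α₀ s * (f.q a * α₀ s⁻¹)
    rw [map_mul, map_mul, hL.qa, hL.qa]
  have hq : ∀ T : Subgroup V, ∀ a ∈ FxR (cw R α) T, f.q a ∈ FxR (cw F α₀) T := by
    intro T a ha s hs
    rw [← hqc, ha s hs]
  have hqb : ∀ T : Subgroup V, ∀ a ∈ BKR (cw R α) T, f.q a ∈ BKR (cw F α₀) T := by
    intro T a ha
    refine Submodule.span_induction (p := fun a _ => f.q a ∈ BKR (cw F α₀) T) ?_ ?_ ?_ ?_ ha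
    · rintro n ⟨P', S, m, hP, hS, hm, rfl⟩
      rw [map_sum]
      refine Submodule.subset_span ⟨P', S, f.q m, hP, hS, hq _ _ hm, ?_⟩
      exact Finset.sum_congr rfl fun s _ => hqc s m
    · rw [map_zero]
      exact Submodule.zero_mem _
    · intro s t _ _ hs ht
      rw [map_add]
      exact Submodule.add_mem _ hs ht
    · intro t s _ hs
      rw [hqs]
      exact Submodule.smul_mem _ _ hs
  refine ⟨hqe, ?_⟩
  intro s
  obtain ⟨a₀, ha₀, rfl⟩ := hBQ.surj s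
  obtain ⟨a, ha, rfl⟩ := hL1.1 a₀ ha₀
  have har : a * α r = α r * a := mem_fx_iff.1 ha r (Subgroup.mem_zpowers r)
  have h3 := hqb _ _ (h2 a har)
  rw [map_sub, map_mul, map_mul] at h3
  have hmul : ∀ s ∈ FxR (cw F α₀) (Subgroup.zpowers r), ∀ t ∈ FxR (cw F α₀) (Subgroup.zpowers r),
      s * t ∈ FxR (cw F α₀) (Subgroup.zpowers r) := by
    intro s hs t ht
    rw [mem_fx_iff] at hs ht ⊢
    intro u hu
    rw [mul_assoc, ht u hu, ← mul_assoc, hs u hu, mul_assoc]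
  have hm1 := hmul _ ha₀ _ hqe
  have hm2 := hmul _ hqe _ ha₀
  have h4 := (hBQ.ker _ (Submodule.sub_mem _ hm1 hm2)).2 h3
  rw [sub_eq_add_neg, ← neg_one_smul F (f.q e * f.q a),
    hBQ.add _ hm1 _ (Submodule.smul_mem _ _ hm2), hBQ.smul _ _ hm2, neg_one_smul,
    ← sub_eq_add_neg, sub_eq_zero, hBQ.mul _ ha₀ _ hqe, hBQ.mul _ hqe _ ha₀] at h4
  exact h4.symm

end Pool.Agent.PST.H46
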